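import Pool.Agent.H6.LD.Stm

set_option autoImplicit false
open Filter Topology MeasureTheory

namespace Pool.Agent.H3.LD
open Pool.Agent.H6.LD

open scoped Classical in
/-- the real indicator -/
noncomputable def fr (E : ℕ → Prop) (t : ℝ) : ℝ := if E ⌊Real.exp t⌋₊ then 1 else 0

theorem fr_meas (E : ℕ → Prop) : Measurable (fr E) := by
  classical
  have h : fr E = (fun n : ℕ => (if E n then 1 else 0 : ℝ)) ∘ fun t : ℝ => ⌊Real.exp t⌋₊ := by
    funext t
    simp only [fr, Function.comp]
  rw [h]
  exact (measurable_of_countable _).comp (Nat.measurable_floor.comp Real.measurable_exp)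

theorem fr_int (E : ℕ → Prop) (a b : ℝ) : IntervalIntegrable (fr E) volume a b := by
  refine IntervalIntegrable.mono_fun' (g := fun _ => (1 : ℝ)) intervalIntegrable_const
    (fr_meas E).aestronglyMeasurable ?_
  refine Filter.Eventually.of_forall fun t => ?_
  simp only [fr]
  split_ifs <;> simp

open scoped Classical in
theorem piece (E : ℕ → Prop) (k : ℕ) (hk : 1 ≤ k) :
    ∫ t in (Real.log k)..(Real.log ((k + 1 : ℕ) : ℝ)), fr E t
      = (if E k then 1 else 0) * (Real.log ((k + 1 : ℕ) : ℝ) - Real.log k) := by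
  have hk0 : (0 : ℝ) < k := by exact_mod_cast hk
  have hle : Real.log k ≤ Real.log ((k + 1 : ℕ) : ℝ) :=
    Real.log_le_log hk0 (by push_cast; linarith)
  rw [intervalIntegral.integral_congr_Ioo_of_le (g := fun _ => (if E k then 1 else 0 : ℝ)) hle]
  · rw [intervalIntegral.integral_const, smul_eq_mul, mul_comm]
  · intro t ht
    have h1 : (k : ℝ) < Real.exp t := (Real.log_lt_iff_lt_exp hk0).mp ht.1
    have h2 : Real.exp t < ((k + 1 : ℕ) : ℝ) := (Real.lt_log_iff_exp_lt (by positivity)).mp ht.2
    have h3 : ⌊Real.exp t⌋₊ = k := by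
      rw [Nat.floor_eq_iff (Real.exp_pos t).le]
      exact ⟨h1.le, by push_cast at h2; exact h2⟩
    simp only [fr, h3]

open scoped Classical in
theorem close (E : ℕ → Prop) (x : ℕ) :
    0 ≤ LS E x - ∫ t in (0 : ℝ)..(Real.log ((x + 1 : ℕ) : ℝ)), fr E t ∧
      LS E x - ∫ t in (0 : ℝ)..(Real.log ((x + 1 : ℕ) : ℝ)), fr E t ≤ 1 - 1 / ((x : ℝ) + 1) := by
  induction x with
  | zero => simp [LS]
  | succ x ih =>
    have hstep : LS E (x + 1) = LS E x + (if E (x + 1) then 1 else 0) * (1 / ((x + 1 : ℕ) : ℝ)) := by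
      unfold LS
      rw [← Finset.insert_Icc_right_eq_Icc_add_one (by omega : 1 ≤ x + 1), Finset.filter_insert]
      split_ifs with h
      · rw [Finset.sum_insert (by simp)]
        ring
      · ring
    have hint : ∫ t in (0 : ℝ)..(Real.log ((x + 1 + 1 : ℕ) : ℝ)), fr E t
        = (∫ t in (0 : ℝ)..(Real.log ((x + 1 : ℕ) : ℝ)), fr E t)
          + (if E (x + 1) then 1 else 0) * (Real.log ((x + 1 + 1 : ℕ) : ℝ) - Real.log ((x + 1 : ℕ) : ℝ)) := by
      rw [← piece E (x + 1) (by omega),
        intervalIntegral.integral_add_adjacent_intervals (fr_int E _ _) (fr_int E _ _)]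
    rw [hstep, hint]
    have hx0 : (0 : ℝ) < (x : ℝ) + 1 := by positivity
    have hx1 : (0 : ℝ) < (x : ℝ) + 1 + 1 := by positivity
    have hlog : Real.log ((x + 1 + 1 : ℕ) : ℝ) - Real.log ((x + 1 : ℕ) : ℝ)
        = Real.log (((x : ℝ) + 1 + 1) / ((x : ℝ) + 1)) := by
      rw [Real.log_div hx1.ne' hx0.ne']
      push_cast
      ring
    have hup : Real.log (((x : ℝ) + 1 + 1) / ((x : ℝ) + 1)) ≤ 1 / ((x : ℝ) + 1) := by
      have h := Real.log_le_sub_one_of_pos (x := ((x : ℝ) + 1 + 1) / ((x : ℝ) + 1)) (by positivity)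
      have h' : ((x : ℝ) + 1 + 1) / ((x : ℝ) + 1) - 1 = 1 / ((x : ℝ) + 1) := by field_simp; ring
      linarith
    have hlo : 1 / ((x : ℝ) + 1 + 1) ≤ Real.log (((x : ℝ) + 1 + 1) / ((x : ℝ) + 1)) := by
      have h := Real.one_sub_inv_le_log_of_pos (x := ((x : ℝ) + 1 + 1) / ((x : ℝ) + 1)) (by positivity)
      have h' : 1 - (((x : ℝ) + 1 + 1) / ((x : ℝ) + 1))⁻¹ = 1 / ((x : ℝ) + 1 + 1) := by
        rw [inv_div]; field_simp; ring
      linarith
    rw [hlog]
    have hmono : 1 / ((x : ℝ) + 1 + 1) ≤ 1 / ((x : ℝ) + 1) :=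
      one_div_le_one_div_of_le hx0 (by linarith)
    obtain ⟨ih1, ih2⟩ := ih
    clear hint
    generalize (∫ t in (0 : ℝ)..(Real.log ((x + 1 : ℕ) : ℝ)), fr E t) = J at *
    push_cast
    split_ifs
    · constructor <;> linarith
    · constructor <;> linarith

theorem t_LOG : S_LOG := by
  classical
  intro E m hm
  unfold HasLD
  have hre : Tendsto (fun T : ℝ => (1 / T) * ∫ t in (0 : ℝ)..T, fr E t) atTop (𝓝 m) := by
    unfold HasMean at hm
    have h := (Complex.continuous_re.tendsto _).comp hm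
    simp only [Complex.ofReal_re] at h
    refine h.congr fun T => ?_
    simp only [Function.comp]
    have h1 : (∫ t in (0 : ℝ)..T, ((if E ⌊Real.exp t⌋₊ then 1 else 0 : ℂ)))
        = ((∫ t in (0 : ℝ)..T, fr E t : ℝ) : ℂ) := by
      rw [← intervalIntegral.integral_ofReal]
      congr 1
      funext t
      simp only [fr]
      split_ifs <;> simp
    rw [h1, ← Complex.ofReal_mul, Complex.ofReal_re]
  have hlogx : Tendsto (fun x : ℕ => Real.log (x : ℝ)) atTop atTop :=
    Real.tendsto_log_atTop.comp tendsto_natCast_atTop_atTop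
  have hlogx1 : Tendsto (fun x : ℕ => Real.log ((x + 1 : ℕ) : ℝ)) atTop atTop :=
    hlogx.comp (tendsto_add_atTop_nat 1)
  have h1 := hre.comp hlogx1
  -- ratio of the logarithms
  have hinv : Tendsto (fun x : ℕ => 1 / Real.log (x : ℝ)) atTop (𝓝 0) :=
    tendsto_const_nhds.div_atTop hlogx
  have hratio : Tendsto (fun x : ℕ => Real.log ((x + 1 : ℕ) : ℝ) / Real.log (x : ℝ)) atTop (𝓝 1) := by
    have h2 : Tendsto (fun x : ℕ => 1 + (Real.log ((x + 1 : ℕ) : ℝ) - Real.log (x : ℝ)) / Real.log (x : ℝ))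
        atTop (𝓝 (1 + 0)) := by
      refine tendsto_const_nhds.add ?_
      refine squeeze_zero' ?_ ?_ hinv
      · filter_upwards [eventually_ge_atTop 2] with x hx
        have hx' : (2 : ℝ) ≤ x := by exact_mod_cast hx
        have := Real.log_pos (by linarith : (1 : ℝ) < x)
        have h3 : Real.log (x : ℝ) ≤ Real.log ((x + 1 : ℕ) : ℝ) :=
          Real.log_le_log (by linarith) (by push_cast; linarith)
        exact div_nonneg (by linarith) this.le
      · filter_upwards [eventually_ge_atTop 2] with x hx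
        have hx' : (2 : ℝ) ≤ x := by exact_mod_cast hx
        have hpos := Real.log_pos (by linarith : (1 : ℝ) < x)
        refine div_le_div_of_nonneg_right ?_ hpos.le
        have h4 := Real.log_le_sub_one_of_pos (x := ((x + 1 : ℕ) : ℝ) / (x : ℝ)) (by positivity)
        rw [Real.log_div (by positivity) (by positivity)] at h4
        have h5 : ((x + 1 : ℕ) : ℝ) / (x : ℝ) - 1 = 1 / (x : ℝ) := by
          push_cast
          field_simp
          ring
        have h6 : 1 / (x : ℝ) ≤ 1 := by
          rw [div_le_one (by linarith)]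
          linarith
        linarith
    rw [add_zero] at h2
    refine h2.congr' ?_
    filter_upwards [eventually_ge_atTop 2] with x hx
    have hx' : (2 : ℝ) ≤ x := by exact_mod_cast hx
    have hpos := Real.log_pos (by linarith : (1 : ℝ) < x)
    field_simp
    ring
  have hmain := hratio.mul h1
  rw [one_mul] at hmain
  have herr : Tendsto (fun x : ℕ => (1 / Real.log (x : ℝ)) *
      (LS E x - ∫ t in (0 : ℝ)..(Real.log ((x + 1 : ℕ) : ℝ)), fr E t)) atTop (𝓝 0) := by
    refine squeeze_zero' ?_ ?_ hinv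
    · filter_upwards [eventually_ge_atTop 2] with x hx
      have hx' : (2 : ℝ) ≤ x := by exact_mod_cast hx
      have hpos := Real.log_pos (by linarith : (1 : ℝ) < x)
      exact mul_nonneg (by positivity) (close E x).1
    · filter_upwards [eventually_ge_atTop 2] with x hx
      have hx' : (2 : ℝ) ≤ x := by exact_mod_cast hx
      have hpos := Real.log_pos (by linarith : (1 : ℝ) < x)
      have h7 := (close E x).2
      have h8 : 0 ≤ 1 / ((x : ℝ) + 1) := by positivity
      calc _ ≤ (1 / Real.log (x : ℝ)) * 1 :=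
            mul_le_mul_of_nonneg_left (by linarith) (by positivity)
        _ = _ := mul_one _
  have hsum := hmain.add herr
  rw [add_zero] at hsum
  refine hsum.congr' ?_
  filter_upwards [eventually_ge_atTop 2] with x hx
  have hx' : (2 : ℝ) ≤ x := by exact_mod_cast hx
  have hpos := Real.log_pos (by linarith : (1 : ℝ) < x)
  have hpos1 : 0 < Real.log ((x + 1 : ℕ) : ℝ) := Real.log_pos (by push_cast; linarith)
  simp only [Function.comp]
  field_simp
  ring

end Pool.Agent.H3.LD
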