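import Pool.Agent.H6.LD.Stm

set_option autoImplicit false
open Filter Topology MeasureTheory

namespace Pool.Agent.H3.LD
open Pool.Agent.H6.LD

theorem bint {E : Type*} [NormedAddCommGroup E] [MeasurableSpace E] [BorelSpace E]
    [SecondCountableTopology E] {g : ℝ → E} (hg : Measurable g) {C : ℝ} (hC : ∀ t, ‖g t‖ ≤ C) (a b : ℝ) :
    IntervalIntegrable g volume a b := by
  refine IntervalIntegrable.mono_fun' (g := fun _ => C) intervalIntegrable_const
    hg.aestronglyMeasurable ?_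
  exact Filter.Eventually.of_forall hC

theorem t_PER : S_PER := by
  intro w hw
  refine ⟨?_, ?_⟩
  · intro g hg hb h0 hp T hT
    obtain ⟨C, hC⟩ := hb
    have hC' : ∀ t, ‖g t‖ ≤ C := hC
    have hi := bint hg hC'
    have hper : Function.Periodic g w := hp
    have h1 : ∫ t in (0 : ℝ)..((⌈T / w⌉₊ : ℝ) * w), g t = (⌈T / w⌉₊ : ℝ) * ∫ t in (0 : ℝ)..w, g t := by
      have h := hper.intervalIntegral_add_zsmul_eq (⌈T / w⌉₊ : ℤ) 0 (fun a b => hi a b)
      simpa using h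
    have hI : 0 ≤ ∫ t in (0 : ℝ)..w, g t := intervalIntegral.integral_nonneg hw.le (fun t _ => h0 t)
    have hTw : T ≤ (⌈T / w⌉₊ : ℝ) * w := by
      have := Nat.le_ceil (T / w)
      rwa [div_le_iff₀ hw] at this
    have h2 : ∫ t in (0 : ℝ)..T, g t ≤ ∫ t in (0 : ℝ)..((⌈T / w⌉₊ : ℝ) * w), g t := by
      rw [← intervalIntegral.integral_add_adjacent_intervals (hi 0 T) (hi T ((⌈T / w⌉₊ : ℝ) * w))]
      have := intervalIntegral.integral_nonneg hTw (fun t _ => h0 t) (μ := volume)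
      linarith
    have h3 : (⌈T / w⌉₊ : ℝ) ≤ T / w + 1 := (Nat.ceil_lt_add_one (by positivity)).le
    calc ∫ t in (0 : ℝ)..T, g t ≤ _ := h2
      _ = _ := h1
      _ ≤ _ := mul_le_mul_of_nonneg_right h3 hI
  · intro g hg hb hp
    obtain ⟨C, hC⟩ := hb
    have hi := bint hg hC
    have hC0 : 0 ≤ C := le_trans (norm_nonneg _) (hC 0)
    have hper : Function.Periodic g w := hp
    set I := ∫ t in (0 : ℝ)..w, g t with hIdef
    unfold HasMean
    rw [tendsto_iff_norm_sub_tendsto_zero]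
    have hlim : Tendsto (fun T : ℝ => (‖I‖ + C * w) / T) atTop (𝓝 0) :=
      tendsto_const_nhds.div_atTop tendsto_id
    refine squeeze_zero' (Filter.Eventually.of_forall fun T => norm_nonneg _) ?_ hlim
    filter_upwards [eventually_gt_atTop (0 : ℝ)] with T hT
    have h1 : ∫ t in (0 : ℝ)..((⌊T / w⌋₊ : ℝ) * w), g t = ((⌊T / w⌋₊ : ℝ) : ℂ) * I := by
      have h := hper.intervalIntegral_add_zsmul_eq (⌊T / w⌋₊ : ℤ) 0 (fun a b => hi a b)
      simpa using h
    have hn0 : (⌊T / w⌋₊ : ℝ) ≤ T / w := Nat.floor_le (by positivity)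
    have hn1 : T / w < (⌊T / w⌋₊ : ℝ) + 1 := Nat.lt_floor_add_one _
    have hnw : (⌊T / w⌋₊ : ℝ) * w ≤ T := by rwa [le_div_iff₀ hw] at hn0
    have hnw' : T < ((⌊T / w⌋₊ : ℝ) + 1) * w := by rwa [div_lt_iff₀ hw] at hn1
    have h2 : ‖∫ t in ((⌊T / w⌋₊ : ℝ) * w)..T, g t‖ ≤ C * w := by
      have h := intervalIntegral.norm_integral_le_of_norm_le_const
        (a := (⌊T / w⌋₊ : ℝ) * w) (b := T) (f := g) (C := C) (fun t _ => hC t)
      refine h.trans (mul_le_mul_of_nonneg_left ?_ hC0)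
      rw [abs_of_nonneg (by linarith)]
      linarith
    have h3 := intervalIntegral.integral_add_adjacent_intervals (hi 0 ((⌊T / w⌋₊ : ℝ) * w))
      (hi ((⌊T / w⌋₊ : ℝ) * w) T)
    rw [← h3, h1]
    have h4 : ((1 / T : ℝ) : ℂ) * (((⌊T / w⌋₊ : ℝ) : ℂ) * I + ∫ t in ((⌊T / w⌋₊ : ℝ) * w)..T, g t)
        - ((1 / w : ℝ) : ℂ) * I
        = (((⌊T / w⌋₊ : ℝ) / T - 1 / w : ℝ) : ℂ) * I
          + ((1 / T : ℝ) : ℂ) * ∫ t in ((⌊T / w⌋₊ : ℝ) * w)..T, g t := by
      push_cast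
      ring
    rw [h4]
    refine (norm_add_le _ _).trans ?_
    rw [norm_mul, norm_mul, Complex.norm_real, Complex.norm_real, Real.norm_eq_abs, Real.norm_eq_abs]
    have h5 : |(⌊T / w⌋₊ : ℝ) / T - 1 / w| ≤ 1 / T := by
      rw [show (⌊T / w⌋₊ : ℝ) / T - 1 / w = -((T / w - (⌊T / w⌋₊ : ℝ)) / T) by
        field_simp
        ring, abs_neg, abs_div, abs_of_pos hT]
      refine div_le_div_of_nonneg_right ?_ hT.le
      rw [abs_of_nonneg (by linarith)]
      linarith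
    have h6 : |1 / T| = 1 / T := abs_of_pos (by positivity)
    rw [h6]
    calc _ ≤ 1 / T * ‖I‖ + 1 / T * (C * w) := by
          refine add_le_add (mul_le_mul_of_nonneg_right h5 (norm_nonneg _)) ?_
          exact mul_le_mul_of_nonneg_left h2 (by positivity)
      _ = (‖I‖ + C * w) / T := by ring

end Pool.Agent.H3.LD
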